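import Pool.Agent.Helper86.AA.Words

/-!
# The count in one base
-/

set_option autoImplicit false

namespace Pool.Agent.Helper86.AA

open Finset

open Classical in
/-- vectors in the box with a root `|x| < H + 1` whose first `log_b H` digits have at most `s` values -/
noncomputable def badb (D H b s : ℕ) : Finset (Fin (D + 1) → ℤ) :=
  (box D H).filter fun a => ∃ x : ℝ, |x| < (H : ℝ) + 1 ∧ ev a x = 0 ∧
    ((Finset.range (Nat.log b H)).image (digit b x)).card ≤ s

/-- the two integer parts with a given distance from the origin -/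
def kOf (σ : Bool) (T : ℕ) : ℤ := if σ then T else -T - 1

theorem exists_kOf (H : ℕ) (x : ℝ) (hx : |x| < (H : ℝ) + 1) :
    ∃ σ : Bool, ∃ T ∈ Finset.range (H + 1), ⌊x⌋ = kOf σ T := by
  rw [abs_lt] at hx
  rcases le_or_gt 0 ⌊x⌋ with h | h
  · refine ⟨true, ⌊x⌋.toNat, ?_, ?_⟩
    · have h1 : ⌊x⌋ < (H : ℤ) + 1 := by
        rw [Int.floor_lt]; push_cast; exact hx.2
      rw [Finset.mem_range]; omega
    · rw [kOf, if_pos rfl]; omega
  · refine ⟨false, (-⌊x⌋ - 1).toNat, ?_, ?_⟩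
    · have h1 : -(H : ℤ) - 1 ≤ ⌊x⌋ := by
        rw [Int.le_floor]; push_cast; linarith [hx.1]
      rw [Finset.mem_range]; omega
    · rw [kOf]; simp only [Bool.false_eq_true, if_false]; omega

/-- the bound for one cell at distance `T` -/
def Bd (E H b T : ℕ) : ℕ := if T = 0 then (2 * ((E + 1) ^ 2 * b) + 1) * (2 * H + 1) ^ (E + 1)
  else (2 * ((E + 1) ^ 2 * b) + 1) * ((2 * H + 1) ^ E * (2 * ((E + 1) * H / T) + 1))

theorem cell_le_Bd (E H b n : ℕ) (hb : 2 ≤ b) (hH : H < b ^ (n + 1)) (σ : Bool) (T : ℕ) (N : ℤ) :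
    (cell (E + 1) H b n (kOf σ T) N).card ≤ Bd E H b T := by
  rw [Bd]
  split_ifs with h
  · subst h
    refine cell_near E H b n hb hH _ N ?_
    rw [kOf]
    cases σ <;> simp
  · refine cell_far E H b n hb hH _ N T (by omega) ?_
    rw [kOf]
    cases σ <;> simp

theorem badb_card (E H b s : ℕ) (hb : 2 ≤ b) :
    (badb (E + 1) H b s).card ≤
      2 * (b ^ s * s ^ (Nat.log b H)) * ∑ T ∈ Finset.range (H + 1), Bd E H b T := by
  classical
  set n := Nat.log b H with hn
  have hH : H < b ^ (n + 1) := Nat.lt_pow_succ_log_self (by omega) H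
  have hsub : badb (E + 1) H b s ⊆ (Finset.univ : Finset Bool).biUnion fun σ =>
      (Finset.range (H + 1)).biUnion fun T => (words b n s).biUnion fun d =>
        cell (E + 1) H b n (kOf σ T) (cellN b (kOf σ T) (ext d) n) := by
    intro a ha
    rw [badb, Finset.mem_filter] at ha
    obtain ⟨ha, x, hx, h0, hc⟩ := ha
    obtain ⟨σ, T, hT, hk⟩ := exists_kOf H x hx
    obtain ⟨d, hd, hde⟩ := exists_word b n s (by omega) x hc
    simp only [Finset.mem_biUnion]
    refine ⟨σ, Finset.mem_univ _, T, hT, d, hd, ?_⟩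
    rw [cell, Finset.mem_filter]
    refine ⟨ha, x, hk, ?_, h0⟩
    rw [floor_eq_cellN b x (ext d) n hde, hk]
  refine (Finset.card_le_card hsub).trans ?_
  have h1 : ∀ σ : Bool, ((Finset.range (H + 1)).biUnion fun T => (words b n s).biUnion fun d =>
        cell (E + 1) H b n (kOf σ T) (cellN b (kOf σ T) (ext d) n)).card
      ≤ (b ^ s * s ^ n) * ∑ T ∈ Finset.range (H + 1), Bd E H b T := by
    intro σ
    refine Finset.card_biUnion_le.trans ?_
    rw [Finset.mul_sum]
    refine Finset.sum_le_sum fun T _ => ?_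
    refine Finset.card_biUnion_le.trans ?_
    calc ∑ d ∈ words b n s, (cell (E + 1) H b n (kOf σ T) (cellN b (kOf σ T) (ext d) n)).card
        ≤ ∑ _d ∈ words b n s, Bd E H b T :=
          Finset.sum_le_sum fun d _ => cell_le_Bd E H b n hb hH σ T _
      _ = (words b n s).card * Bd E H b T := by rw [Finset.sum_const, smul_eq_mul]
      _ ≤ (b ^ s * s ^ n) * Bd E H b T := Nat.mul_le_mul_right _ (card_words b n s (by omega))
  refine Finset.card_biUnion_le.trans ?_
  calc ∑ σ ∈ (Finset.univ : Finset Bool), _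
      ≤ ∑ _σ ∈ (Finset.univ : Finset Bool),
          (b ^ s * s ^ n) * ∑ T ∈ Finset.range (H + 1), Bd E H b T :=
        Finset.sum_le_sum fun σ _ => h1 σ
    _ = 2 * (b ^ s * s ^ n) * ∑ T ∈ Finset.range (H + 1), Bd E H b T := by
        rw [Finset.sum_const, Finset.card_univ, Fintype.card_bool, smul_eq_mul]; ring

theorem sum_Bd (E H b : ℕ) (hH : 1 ≤ H) :
    ((∑ T ∈ Finset.range (H + 1), Bd E H b T : ℕ) : ℝ) ≤
      (2 * ((E + 1) ^ 2 * b) + 1) * (2 * H + 1) ^ (E + 1) * ((E + 3) * (1 + Real.log H)) := by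
  have hH1 : (1 : ℝ) ≤ H := by exact_mod_cast hH
  have hlog : 0 ≤ Real.log H := Real.log_nonneg hH1
  rw [Finset.sum_range_succ']
  push_cast
  have h0 : (Bd E H b 0 : ℝ) = (2 * ((E + 1) ^ 2 * b) + 1) * (2 * H + 1) ^ (E + 1) := by
    rw [Bd, if_pos rfl]; push_cast; ring
  have hharm : ∑ T ∈ Finset.range H, (1 : ℝ) / ((T : ℝ) + 1) ≤ 1 + Real.log H := by
    have h1 := harmonic_le_one_add_log H
    rw [harmonic] at h1
    push_cast at h1
    refine le_trans (le_of_eq ?_) h1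
    exact Finset.sum_congr rfl fun i _ => by rw [one_div]
  have h1 : ∑ T ∈ Finset.range H, (Bd E H b (T + 1) : ℝ) ≤
      (2 * ((E + 1) ^ 2 * b) + 1) * (2 * H + 1) ^ E * ((2 * ((E + 1) * H)) * (1 + Real.log H) + H) := by
    calc ∑ T ∈ Finset.range H, (Bd E H b (T + 1) : ℝ)
        ≤ ∑ T ∈ Finset.range H, ((2 * ((E + 1) ^ 2 * b) + 1) * (2 * H + 1) ^ E *
            ((2 * ((E + 1) * H)) * ((1 : ℝ) / ((T : ℝ) + 1)) + 1)) := by
          refine Finset.sum_le_sum fun T _ => ?_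
          rw [Bd, if_neg (Nat.succ_ne_zero T)]
          push_cast
          rw [mul_assoc]
          have h2 : (((E + 1) * H / (T + 1) : ℕ) : ℝ) ≤ ((E + 1) * H) * ((1 : ℝ) / ((T : ℝ) + 1)) := by
            refine (Nat.cast_div_le).trans (le_of_eq ?_)
            push_cast
            ring
          have h3 : 2 * (((E + 1) * H / (T + 1) : ℕ) : ℝ) + 1
              ≤ (2 * ((E + 1) * H)) * ((1 : ℝ) / ((T : ℝ) + 1)) + 1 := by linarith
          gcongr
      _ = (2 * ((E + 1) ^ 2 * b) + 1) * (2 * H + 1) ^ E *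
            ((2 * ((E + 1) * H)) * ∑ T ∈ Finset.range H, ((1 : ℝ) / ((T : ℝ) + 1)) + H) := by
          rw [← Finset.mul_sum, Finset.sum_add_distrib, ← Finset.mul_sum]
          simp
      _ ≤ _ := by gcongr
  rw [h0]
  have h4 : (2 * ((E + 1) * H)) * (1 + Real.log H) + H
      ≤ (2 * (H : ℝ) + 1) * (((E : ℝ) + 1) * (1 + Real.log H) + 1) := by
    have : (0 : ℝ) ≤ (E : ℝ) := by positivity
    have h5 : 0 ≤ ((E : ℝ) + 1) * (1 + Real.log H) := by positivity
    nlinarith
  calc ∑ T ∈ Finset.range H, (Bd E H b (T + 1) : ℝ)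
        + (2 * ((E + 1) ^ 2 * b) + 1) * (2 * H + 1) ^ (E + 1)
      ≤ (2 * ((E + 1) ^ 2 * b) + 1) * (2 * H + 1) ^ E *
          ((2 * (H : ℝ) + 1) * (((E : ℝ) + 1) * (1 + Real.log H) + 1))
        + (2 * ((E + 1) ^ 2 * b) + 1) * (2 * H + 1) ^ (E + 1) := by
        refine add_le_add (h1.trans ?_) le_rfl
        gcongr
    _ = (2 * ((E + 1) ^ 2 * b) + 1) * (2 * H + 1) ^ (E + 1) *
          (((E : ℝ) + 1) * (1 + Real.log H) + 2) := by ring
    _ ≤ _ := by
        have h6 : ((E : ℝ) + 1) * (1 + Real.log H) + 2 ≤ (E + 3) * (1 + Real.log H) := by nlinarith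
        gcongr

end Pool.Agent.Helper86.AA
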