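import Pool.Agent.Helper86.AA.Count

/-!
# Coefficients of polynomials with a root in a small cell
-/

set_option autoImplicit false

namespace Pool.Agent.Helper86.AA

open Finset

theorem near_diff {D : ℕ} (H : ℕ) (a a' : Fin (D + 1) → ℤ) (ha : ∀ i, |a i| ≤ (H : ℤ))
    (x x' l : ℝ) (hx : |x| ≤ 1) (hx' : |x'| ≤ 1) (hl : |x - x'| ≤ l)
    (h0 : ev a x = 0) (h0' : ev a' x' = 0) (he : ∀ i, i ≠ 0 → a i = a' i) :
    (|a 0 - a' 0| : ℝ) ≤ (D : ℝ) ^ 2 * H * l := by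
  have e1 : (a 0 : ℝ) - a' 0 = - ∑ i : Fin D, (a i.succ : ℝ) * (x ^ ((i : ℕ) + 1) - x' ^ ((i : ℕ) + 1)) := by
    have h1 : ev a x = a 0 + ∑ i : Fin D, (a i.succ : ℝ) * x ^ ((i : ℕ) + 1) := by
      rw [ev, Fin.sum_univ_succ]; simp
    have h2 : ev a' x' = a' 0 + ∑ i : Fin D, (a i.succ : ℝ) * x' ^ ((i : ℕ) + 1) := by
      rw [ev, Fin.sum_univ_succ]
      simp only [Fin.val_zero, pow_zero, mul_one, Fin.val_succ]
      congr 1
      refine Finset.sum_congr rfl fun i _ => ?_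
      rw [he i.succ (Fin.succ_ne_zero i)]
    have h3 : ∑ i : Fin D, (a i.succ : ℝ) * (x ^ ((i : ℕ) + 1) - x' ^ ((i : ℕ) + 1))
        = ∑ i : Fin D, (a i.succ : ℝ) * x ^ ((i : ℕ) + 1)
          - ∑ i : Fin D, (a i.succ : ℝ) * x' ^ ((i : ℕ) + 1) := by
      rw [← Finset.sum_sub_distrib]
      exact Finset.sum_congr rfl fun i _ => by ring
    rw [h3]
    linarith
  have hl0 : 0 ≤ l := (abs_nonneg _).trans hl
  rw [e1, abs_neg]
  calc |∑ i : Fin D, (a i.succ : ℝ) * (x ^ ((i : ℕ) + 1) - x' ^ ((i : ℕ) + 1))|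
      ≤ ∑ i : Fin D, |(a i.succ : ℝ) * (x ^ ((i : ℕ) + 1) - x' ^ ((i : ℕ) + 1))| :=
        Finset.abs_sum_le_sum_abs _ _
    _ ≤ ∑ _i : Fin D, (H : ℝ) * (D * l) := by
        refine Finset.sum_le_sum fun i _ => ?_
        rw [abs_mul]
        have h4 : |(a i.succ : ℝ)| ≤ H := by exact_mod_cast ha i.succ
        have h5 := abs_pow_sub_pow_le x x' hx hx' ((i : ℕ) + 1)
        have h6 : (((i : ℕ) + 1 : ℕ) : ℝ) * |x - x'| ≤ D * l := by
          have : (((i : ℕ) + 1 : ℕ) : ℝ) ≤ D := by exact_mod_cast i.2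
          gcongr
        have h7 := h5.trans h6
        gcongr
    _ = (D : ℝ) ^ 2 * H * l := by
        rw [Finset.sum_const, Finset.card_univ, Fintype.card_fin, nsmul_eq_mul]; ring

/-- `ev a x` divided by `x ^ E`, degree `E + 1`. -/
theorem ev_div {E : ℕ} (a : Fin (E + 2) → ℤ) (x : ℝ) (hx : x ≠ 0) (h0 : ev a x = 0) :
    (a (Fin.last (E + 1)) : ℝ) * x + a (Fin.castSucc (Fin.last E))
      + ∑ i : Fin E, (a i.castSucc.castSucc : ℝ) * (1 / x) ^ (E - (i : ℕ)) = 0 := by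
  have h1 : ev a x = ∑ i : Fin E, (a i.castSucc.castSucc : ℝ) * x ^ (i : ℕ)
      + (a (Fin.castSucc (Fin.last E)) : ℝ) * x ^ E + (a (Fin.last (E + 1)) : ℝ) * x ^ (E + 1) := by
    rw [ev, Fin.sum_univ_castSucc, Fin.sum_univ_castSucc]
    simp
  have h2 : ∀ i : Fin E, (1 / x) ^ (E - (i : ℕ)) * x ^ E = x ^ (i : ℕ) := by
    intro i
    have h3 : x ^ E = x ^ (E - (i : ℕ)) * x ^ (i : ℕ) := by
      rw [← pow_add]; congr 1; omega
    rw [h3, ← mul_assoc, ← mul_pow, one_div, inv_mul_cancel₀ hx, one_pow, one_mul]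
  have h4 : ((a (Fin.last (E + 1)) : ℝ) * x + a (Fin.castSucc (Fin.last E))
      + ∑ i : Fin E, (a i.castSucc.castSucc : ℝ) * (1 / x) ^ (E - (i : ℕ))) * x ^ E = ev a x := by
    rw [h1, add_mul, add_mul, Finset.sum_mul]
    have h5 : ∑ i : Fin E, (a i.castSucc.castSucc : ℝ) * (1 / x) ^ (E - (i : ℕ)) * x ^ E
        = ∑ i : Fin E, (a i.castSucc.castSucc : ℝ) * x ^ (i : ℕ) :=
      Finset.sum_congr rfl fun i _ => by rw [mul_assoc, h2 i]
    rw [h5]; ring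
  rw [h0] at h4
  exact (mul_eq_zero.mp h4).resolve_right (pow_ne_zero _ hx)

theorem inv_abs_le {x : ℝ} (hx : 1 ≤ |x|) : |1 / x| ≤ 1 := by
  rw [abs_div, abs_one]
  exact (div_le_one (by linarith)).mpr hx

/-- the leading coefficient is small if there is a large root -/
theorem far_lead {E : ℕ} (H : ℕ) (a : Fin (E + 2) → ℤ) (ha : ∀ i, |a i| ≤ (H : ℤ))
    (x : ℝ) (hx : 1 ≤ |x|) (h0 : ev a x = 0) :
    |(a (Fin.last (E + 1)) : ℝ)| * |x| ≤ ((E : ℝ) + 1) * H := by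
  have hx0 : x ≠ 0 := by intro h; rw [h, abs_zero] at hx; linarith
  have h1 := ev_div a x hx0 h0
  have h2 : (a (Fin.last (E + 1)) : ℝ) * x = -(a (Fin.castSucc (Fin.last E))
      + ∑ i : Fin E, (a i.castSucc.castSucc : ℝ) * (1 / x) ^ (E - (i : ℕ))) := by linarith
  rw [← abs_mul, h2, abs_neg]
  have h3 : |∑ i : Fin E, (a i.castSucc.castSucc : ℝ) * (1 / x) ^ (E - (i : ℕ))| ≤ E * H := by
    calc |∑ i : Fin E, (a i.castSucc.castSucc : ℝ) * (1 / x) ^ (E - (i : ℕ))|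
        ≤ ∑ i : Fin E, |(a i.castSucc.castSucc : ℝ) * (1 / x) ^ (E - (i : ℕ))| :=
          Finset.abs_sum_le_sum_abs _ _
      _ ≤ ∑ _i : Fin E, (H : ℝ) := by
          refine Finset.sum_le_sum fun i _ => ?_
          rw [abs_mul, abs_pow]
          have h4 : |(a i.castSucc.castSucc : ℝ)| ≤ H := by exact_mod_cast ha i.castSucc.castSucc
          have h5 : |1 / x| ^ (E - (i : ℕ)) ≤ 1 := pow_le_one₀ (abs_nonneg _) (inv_abs_le hx)
          calc _ ≤ (H : ℝ) * 1 := by gcongr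
            _ = H := mul_one _
      _ = E * H := by rw [Finset.sum_const, Finset.card_univ, Fintype.card_fin, nsmul_eq_mul]
  have h4 : |(a (Fin.castSucc (Fin.last E)) : ℝ)| ≤ H := by
    exact_mod_cast ha (Fin.castSucc (Fin.last E))
  calc |(a (Fin.castSucc (Fin.last E)) : ℝ)
      + ∑ i : Fin E, (a i.castSucc.castSucc : ℝ) * (1 / x) ^ (E - (i : ℕ))| ≤ _ := abs_add_le _ _
    _ ≤ H + E * H := add_le_add h4 h3
    _ = ((E : ℝ) + 1) * H := by ring

theorem far_diff {E : ℕ} (H : ℕ) (a a' : Fin (E + 2) → ℤ) (ha : ∀ i, |a i| ≤ (H : ℤ))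
    (x x' l : ℝ) (hx : 1 ≤ |x|) (hx' : 1 ≤ |x'|) (hl : |x - x'| ≤ l)
    (h0 : ev a x = 0) (h0' : ev a' x' = 0)
    (he : ∀ i, i ≠ Fin.castSucc (Fin.last E) → a i = a' i) :
    (|a (Fin.castSucc (Fin.last E)) - a' (Fin.castSucc (Fin.last E))| : ℝ)
      ≤ ((E : ℝ) ^ 2 + 1) * H * l := by
  have hx0 : x ≠ 0 := by intro h; rw [h, abs_zero] at hx; linarith
  have hx0' : x' ≠ 0 := by intro h; rw [h, abs_zero] at hx'; linarith
  have h1 := ev_div a x hx0 h0
  have h1' := ev_div a' x' hx0' h0'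
  have hl0 : 0 ≤ l := (abs_nonneg _).trans hl
  have hne : Fin.last (E + 1) ≠ Fin.castSucc (Fin.last E) := by
    intro h; have := congrArg Fin.val h; simp at this
  have hne2 : ∀ i : Fin E, i.castSucc.castSucc ≠ Fin.castSucc (Fin.last E) := by
    intro i h; have := congrArg Fin.val h; simp at this; have := i.2; omega
  rw [← he _ hne] at h1'
  have h2 : ∑ i : Fin E, (a' i.castSucc.castSucc : ℝ) * (1 / x') ^ (E - (i : ℕ))
      = ∑ i : Fin E, (a i.castSucc.castSucc : ℝ) * (1 / x') ^ (E - (i : ℕ)) :=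
    Finset.sum_congr rfl fun i _ => by rw [he _ (hne2 i)]
  rw [h2] at h1'
  have e1 : (a (Fin.castSucc (Fin.last E)) : ℝ) - a' (Fin.castSucc (Fin.last E))
      = -((a (Fin.last (E + 1)) : ℝ) * (x - x') + ∑ i : Fin E, (a i.castSucc.castSucc : ℝ) *
        ((1 / x) ^ (E - (i : ℕ)) - (1 / x') ^ (E - (i : ℕ)))) := by
    have h3 : ∑ i : Fin E, (a i.castSucc.castSucc : ℝ) *
        ((1 / x) ^ (E - (i : ℕ)) - (1 / x') ^ (E - (i : ℕ)))
        = ∑ i : Fin E, (a i.castSucc.castSucc : ℝ) * (1 / x) ^ (E - (i : ℕ))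
          - ∑ i : Fin E, (a i.castSucc.castSucc : ℝ) * (1 / x') ^ (E - (i : ℕ)) := by
      rw [← Finset.sum_sub_distrib]
      exact Finset.sum_congr rfl fun i _ => by ring
    rw [h3]
    linarith
  have hinv : |1 / x - 1 / x'| ≤ l := by
    have h3 : 1 / x - 1 / x' = (x' - x) / (x * x') := by field_simp
    rw [h3, abs_div, abs_mul, abs_sub_comm]
    refine (div_le_self (abs_nonneg _) ?_).trans hl
    nlinarith
  rw [e1, abs_neg]
  have hH : ∀ i, |(a i : ℝ)| ≤ H := fun i => by exact_mod_cast ha i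
  calc |(a (Fin.last (E + 1)) : ℝ) * (x - x') + ∑ i : Fin E, (a i.castSucc.castSucc : ℝ) *
        ((1 / x) ^ (E - (i : ℕ)) - (1 / x') ^ (E - (i : ℕ)))|
      ≤ |(a (Fin.last (E + 1)) : ℝ) * (x - x')| + |∑ i : Fin E, (a i.castSucc.castSucc : ℝ) *
        ((1 / x) ^ (E - (i : ℕ)) - (1 / x') ^ (E - (i : ℕ)))| := abs_add_le _ _
    _ ≤ H * l + ∑ i : Fin E, |(a i.castSucc.castSucc : ℝ) *
        ((1 / x) ^ (E - (i : ℕ)) - (1 / x') ^ (E - (i : ℕ)))| := by
        gcongr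
        · rw [abs_mul]
          have := hH (Fin.last (E + 1))
          gcongr
        · exact Finset.abs_sum_le_sum_abs _ _
    _ ≤ H * l + ∑ _i : Fin E, (H : ℝ) * (E * l) := by
        gcongr with i _
        rw [abs_mul]
        have h5 := abs_pow_sub_pow_le (1 / x) (1 / x') (inv_abs_le hx) (inv_abs_le hx') (E - (i : ℕ))
        have h6 : ((E - (i : ℕ) : ℕ) : ℝ) * |1 / x - 1 / x'| ≤ E * l := by
          have : ((E - (i : ℕ) : ℕ) : ℝ) ≤ E := by exact_mod_cast Nat.sub_le _ _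
          gcongr
        have h7 := h5.trans h6
        have := hH i.castSucc.castSucc
        gcongr
    _ = ((E : ℝ) ^ 2 + 1) * H * l := by
        rw [Finset.sum_const, Finset.card_univ, Fintype.card_fin, nsmul_eq_mul]; ring

end Pool.Agent.Helper86.AA
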