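import Pool.Agent.Helper86.AA.Cell

/-!
# The number of polynomials with a root in a given cell
-/

set_option autoImplicit false

namespace Pool.Agent.Helper86.AA

open Finset

/-- integer vectors with entries in `[-H, H]` -/
noncomputable def box (D H : ℕ) : Finset (Fin (D + 1) → ℤ) := Fintype.piFinset fun _ => Finset.Icc (-(H : ℤ)) H

theorem mem_box {D H : ℕ} {a : Fin (D + 1) → ℤ} : a ∈ box D H ↔ ∀ i, |a i| ≤ (H : ℤ) := by
  rw [box, Fintype.mem_piFinset]
  refine forall_congr' fun i => ?_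
  rw [Finset.mem_Icc, abs_le]

open Classical in
/-- vectors in the box with a root with given integer part `k` and `⌊x b^n⌋ = N` -/
noncomputable def cell (D H b n : ℕ) (k N : ℤ) : Finset (Fin (D + 1) → ℤ) :=
  (box D H).filter fun a => ∃ x : ℝ, ⌊x⌋ = k ∧ ⌊x * (b : ℝ) ^ n⌋ = N ∧ ev a x = 0

theorem dist_le {b n : ℕ} (hb : 2 ≤ b) {N : ℤ} {x x' : ℝ} (h : ⌊x * (b : ℝ) ^ n⌋ = N)
    (h' : ⌊x' * (b : ℝ) ^ n⌋ = N) : |x - x'| ≤ 1 / (b : ℝ) ^ n := by
  have hb0 : (0 : ℝ) < (b : ℝ) ^ n := by positivity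
  rw [le_div_iff₀ hb0]
  have h1 := Int.floor_le (x * (b : ℝ) ^ n)
  have h2 := Int.lt_floor_add_one (x * (b : ℝ) ^ n)
  have h3 := Int.floor_le (x' * (b : ℝ) ^ n)
  have h4 := Int.lt_floor_add_one (x' * (b : ℝ) ^ n)
  rw [h] at h1 h2
  rw [h'] at h3 h4
  rw [← abs_of_pos hb0, ← abs_mul, sub_mul, abs_le]
  constructor <;> linarith

theorem small_cell {b n H : ℕ} (hb : 2 ≤ b) (hH : H < b ^ (n + 1)) :
    (H : ℝ) * (1 / (b : ℝ) ^ n) ≤ b := by
  have hb0 : (0 : ℝ) < (b : ℝ) ^ n := by positivity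
  rw [mul_one_div, div_le_iff₀ hb0]
  have : (H : ℝ) ≤ (b : ℝ) ^ (n + 1) := by exact_mod_cast hH.le
  rw [pow_succ] at this
  linarith

theorem cell_near (E H b n : ℕ) (hb : 2 ≤ b) (hH : H < b ^ (n + 1)) (k N : ℤ)
    (hk : k = 0 ∨ k = -1) :
    (cell (E + 1) H b n k N).card ≤ (2 * ((E + 1) ^ 2 * b) + 1) * (2 * H + 1) ^ (E + 1) := by
  classical
  have h1 := card_fiber (cell (E + 1) H b n k N) (fun _ => H) 0 ((E + 1) ^ 2 * b)
    (fun a ha i _ => by
      rw [cell, Finset.mem_filter, mem_box] at ha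
      exact ha.1 i)
    (by
      intro a ha a' ha' he
      rw [cell, Finset.mem_filter, mem_box] at ha ha'
      obtain ⟨ha, x, hxk, hxN, hx0⟩ := ha
      obtain ⟨ha', x', hxk', hxN', hx0'⟩ := ha'
      have habs : ∀ y : ℝ, ⌊y⌋ = k → |y| ≤ 1 := by
        intro y hy
        have h2 := Int.floor_le y
        have h3 := Int.lt_floor_add_one y
        rw [hy] at h2 h3
        rcases hk with rfl | rfl
        · push_cast at h2 h3; rw [abs_le]; constructor <;> linarith
        · push_cast at h2 h3; rw [abs_le]; constructor <;> linarith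
      have h2 := near_diff H a a' ha x x' _ (habs x hxk) (habs x' hxk') (dist_le hb hxN hxN')
        hx0 hx0' he
      have h3 : (((E + 1 : ℕ) : ℝ)) ^ 2 * H * (1 / (b : ℝ) ^ n) ≤ ((E + 1 : ℕ) : ℝ) ^ 2 * b := by
        rw [mul_assoc]
        have := small_cell hb hH
        gcongr
      have h4 := h2.trans h3
      have h5 : ((|a 0 - a' 0| : ℤ) : ℝ) ≤ (((E + 1) ^ 2 * b : ℕ) : ℝ) := by
        push_cast
        push_cast at h4
        exact h4
      exact_mod_cast h5)
  refine h1.trans (le_of_eq ?_)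
  congr 1
  rw [Fin.prod_univ_succ, if_pos rfl, one_mul]
  rw [Finset.prod_congr rfl (g := fun _ => 2 * H + 1)
    (fun i _ => if_neg (Fin.succ_ne_zero i))]
  rw [Finset.prod_const, Finset.card_univ, Fintype.card_fin]

theorem cell_far (E H b n : ℕ) (hb : 2 ≤ b) (hH : H < b ^ (n + 1)) (k N : ℤ) (T : ℕ) (hT : 1 ≤ T)
    (hk : k = T ∨ k = -T - 1) :
    (cell (E + 1) H b n k N).card
      ≤ (2 * ((E + 1) ^ 2 * b) + 1) * ((2 * H + 1) ^ E * (2 * ((E + 1) * H / T) + 1)) := by
  classical
  have habs : ∀ y : ℝ, ⌊y⌋ = k → (T : ℝ) ≤ |y| := by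
    intro y hy
    have h2 := Int.floor_le y
    have h3 := Int.lt_floor_add_one y
    rw [hy] at h2 h3
    have hT0 : (0 : ℝ) ≤ T := by positivity
    rcases hk with rfl | rfl
    · push_cast at h2 h3
      exact h2.trans (le_abs_self y)
    · push_cast at h2 h3
      exact le_abs.mpr (Or.inr (by linarith))
  have hT1 : (1 : ℝ) ≤ T := by exact_mod_cast hT
  have h1 := card_fiber (cell (E + 1) H b n k N)
    (fun i => if i = Fin.last (E + 1) then (E + 1) * H / T else H) (Fin.castSucc (Fin.last E))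
    ((E + 1) ^ 2 * b)
    (fun a ha i _ => by
      rw [cell, Finset.mem_filter, mem_box] at ha
      obtain ⟨ha, x, hxk, hxN, hx0⟩ := ha
      by_cases hi : i = Fin.last (E + 1)
      · rw [hi, if_pos rfl]
        have h2 := far_lead H a ha x (hT1.trans (habs x hxk)) hx0
        have h3 : |(a (Fin.last (E + 1)) : ℝ)| * T ≤ ((E : ℝ) + 1) * H := by
          refine le_trans ?_ h2
          have := habs x hxk
          gcongr
        have h4 : (a (Fin.last (E + 1))).natAbs * T ≤ (E + 1) * H := by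
          have h5 : (((a (Fin.last (E + 1))).natAbs * T : ℕ) : ℝ) ≤ (((E + 1) * H : ℕ) : ℝ) := by
            push_cast
            rw [Nat.cast_natAbs]
            push_cast
            exact h3
          exact_mod_cast h5
        have h6 := (Nat.le_div_iff_mul_le (by omega)).mpr h4
        rw [Int.abs_eq_natAbs]
        exact_mod_cast h6
      · rw [if_neg hi]
        exact ha i)
    (by
      intro a ha a' ha' he
      rw [cell, Finset.mem_filter, mem_box] at ha ha'
      obtain ⟨ha, x, hxk, hxN, hx0⟩ := ha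
      obtain ⟨ha', x', hxk', hxN', hx0'⟩ := ha'
      have h2 := far_diff H a a' ha x x' _ (hT1.trans (habs x hxk)) (hT1.trans (habs x' hxk'))
        (dist_le hb hxN hxN') hx0 hx0' he
      have h3 : ((E : ℝ) ^ 2 + 1) * H * (1 / (b : ℝ) ^ n) ≤ ((E : ℝ) + 1) ^ 2 * b := by
        rw [mul_assoc]
        have := small_cell hb hH
        have h4 : ((E : ℝ) ^ 2 + 1) ≤ ((E : ℝ) + 1) ^ 2 := by
          have : (0 : ℝ) ≤ E := by positivity
          nlinarith
        gcongr
      have h4 := h2.trans h3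
      have h5 : ((|a (Fin.castSucc (Fin.last E)) - a' (Fin.castSucc (Fin.last E))| : ℤ) : ℝ)
          ≤ (((E + 1) ^ 2 * b : ℕ) : ℝ) := by
        push_cast
        exact h4
      exact_mod_cast h5)
  refine h1.trans (le_of_eq ?_)
  congr 1
  have hne : Fin.last (E + 1) ≠ Fin.castSucc (Fin.last E) := by
    intro h; have := congrArg Fin.val h; simp at this
  rw [Fin.prod_univ_castSucc, Fin.prod_univ_castSucc]
  rw [if_pos rfl, mul_one, if_neg hne, if_pos rfl]
  congr 1
  rw [Finset.prod_congr rfl (g := fun _ => 2 * H + 1) (fun i _ => by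
    have h2 : i.castSucc.castSucc ≠ Fin.castSucc (Fin.last E) := by
      intro h; have := congrArg Fin.val h; simp at this; have := i.2; omega
    have h3 : i.castSucc.castSucc ≠ Fin.last (E + 1) := by
      intro h; have := congrArg Fin.val h; simp at this; have := i.2; omega
    rw [if_neg h2, if_neg h3])]
  rw [Finset.prod_const, Finset.card_univ, Fintype.card_fin]

end Pool.Agent.Helper86.AA
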