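import Mathlib

/-!
# Counting integer vectors whose polynomial has a root in a small cell
-/

set_option autoImplicit false

namespace Pool.Agent.Helper86.AA

open Finset

/-- value of the polynomial with coefficient vector `a` -/
noncomputable def ev {D : ℕ} (a : Fin (D + 1) → ℤ) (x : ℝ) : ℝ := ∑ i, (a i : ℝ) * x ^ (i : ℕ)

theorem abs_pow_sub_pow_le (x y : ℝ) (hx : |x| ≤ 1) (hy : |y| ≤ 1) (j : ℕ) :
    |x ^ j - y ^ j| ≤ j * |x - y| := by
  induction j with
  | zero => simp
  | succ j ih =>
    have h : x ^ (j + 1) - y ^ (j + 1) = x * (x ^ j - y ^ j) + (x - y) * y ^ j := by ring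
    rw [h]
    calc |x * (x ^ j - y ^ j) + (x - y) * y ^ j|
        ≤ |x * (x ^ j - y ^ j)| + |(x - y) * y ^ j| := abs_add_le _ _
      _ = |x| * |x ^ j - y ^ j| + |x - y| * |y| ^ j := by rw [abs_mul, abs_mul, abs_pow]
      _ ≤ 1 * (j * |x - y|) + |x - y| * 1 := by
          gcongr
          exact pow_le_one₀ (abs_nonneg _) hy
      _ = ((j + 1 : ℕ) : ℝ) * |x - y| := by push_cast; ring

theorem card_fiber {D : ℕ} (R : Finset (Fin (D + 1) → ℤ)) (h : Fin (D + 1) → ℕ) (i0 : Fin (D + 1))
    (L : ℕ) (hR : ∀ a ∈ R, ∀ i, i ≠ i0 → |a i| ≤ (h i : ℤ))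
    (hL : ∀ a ∈ R, ∀ a' ∈ R, (∀ i, i ≠ i0 → a i = a' i) → |a i0 - a' i0| ≤ (L : ℤ)) :
    R.card ≤ (2 * L + 1) * ∏ i, (if i = i0 then 1 else 2 * h i + 1) := by
  classical
  have h1 := Finset.card_le_mul_card_image (f := fun a : Fin (D + 1) → ℤ => Function.update a i0 0)
    R (2 * L + 1) (by
      intro v _
      rcases (R.filter fun x => Function.update x i0 0 = v).eq_empty_or_nonempty with he | ⟨a0, ha0⟩
      · rw [he]; simp
      · rw [Finset.mem_filter] at ha0
        have hinj : Set.InjOn (fun a : Fin (D + 1) → ℤ => a i0)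
            ((R.filter fun x => Function.update x i0 0 = v : Finset (Fin (D + 1) → ℤ)) :
              Set (Fin (D + 1) → ℤ)) := by
          intro a ha a' ha' haa
          rw [Finset.mem_coe, Finset.mem_filter] at ha ha'
          funext i
          by_cases hi : i = i0
          · rw [hi]; exact haa
          · have e1 := congrFun (ha.2.trans ha'.2.symm) i
            rwa [Function.update_of_ne hi, Function.update_of_ne hi] at e1
        rw [← Finset.card_image_of_injOn hinj]
        have hsub : (R.filter fun x => Function.update x i0 0 = v).image (fun a => a i0)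
            ⊆ Finset.Icc (a0 i0 - L) (a0 i0 + L) := by
          intro t ht
          rw [Finset.mem_image] at ht
          obtain ⟨a, ha, rfl⟩ := ht
          rw [Finset.mem_filter] at ha
          have := hL a ha.1 a0 ha0.1 (fun i hi => by
            have e1 := congrFun (ha.2.trans ha0.2.symm) i
            rwa [Function.update_of_ne hi, Function.update_of_ne hi] at e1)
          rw [abs_le] at this
          rw [Finset.mem_Icc]
          constructor <;> linarith [this.1, this.2]
        refine (Finset.card_le_card hsub).trans ?_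
        rw [Int.card_Icc]
        omega)
  refine h1.trans (Nat.mul_le_mul_left _ ?_)
  have hsub : R.image (fun a : Fin (D + 1) → ℤ => Function.update a i0 0) ⊆
      Fintype.piFinset (fun i => if i = i0 then ({0} : Finset ℤ) else Finset.Icc (-(h i : ℤ)) (h i)) := by
    intro v hv
    rw [Finset.mem_image] at hv
    obtain ⟨a, ha, rfl⟩ := hv
    rw [Fintype.mem_piFinset]
    intro i
    by_cases hi : i = i0
    · subst hi; simp
    · rw [Function.update_of_ne hi, if_neg hi, Finset.mem_Icc]
      exact abs_le.mp (hR a ha i hi)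
  refine (Finset.card_le_card hsub).trans ?_
  rw [Fintype.card_piFinset]
  apply le_of_eq
  refine Finset.prod_congr rfl fun i _ => ?_
  by_cases hi : i = i0
  · simp [hi]
  · rw [if_neg hi, if_neg hi, Int.card_Icc]
    omega

end Pool.Agent.Helper86.AA
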