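import Pool.Agent.Helper86.AA.Main

/-!
# The final count
-/

set_option autoImplicit false

namespace Pool.Agent.Helper86.AA

open Finset Polynomial

theorem ncard_le_of_maps (D m M H : ℕ) (U : Finset (Fin (D + 1) → ℤ))
    (h : ∀ P ∈ Bad D m M H, vec D P ∈ U) :
    (Bad D m M H).Finite ∧ (Bad D m M H).ncard ≤ U.card := by
  have hinj : Set.InjOn (vec D) (Bad D m M H) := fun P hP Q hQ hPQ => vec_inj hP.2.1 hQ.2.1 hPQ
  have hmaps : Set.MapsTo (vec D) (Bad D m M H) (U : Set (Fin (D + 1) → ℤ)) := h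
  refine ⟨Set.Finite.of_injOn hmaps hinj U.finite_toSet, ?_⟩
  have h1 := Set.ncard_le_ncard_of_injOn (vec D) hmaps hinj U.finite_toSet
  rwa [Set.ncard_coe_finset] at h1

theorem small_b {H b κ : ℕ} {β : ℝ} (hβ : 0 < β) (hκ : 1 / β ≤ κ) (hH : 1 ≤ H) (h : b ^ κ < H) :
    (b : ℝ) ≤ (H : ℝ) ^ β := by
  have hH1 : (1 : ℝ) ≤ H := by exact_mod_cast hH
  have hκ0 : (0 : ℝ) < κ := lt_of_lt_of_le (by positivity) hκ
  have hκ1 : κ ≠ 0 := by intro h0; rw [h0] at hκ0; simp at hκ0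
  have h1 : ((b : ℝ) ^ κ) ≤ H := by exact_mod_cast h.le
  have h2 : (b : ℝ) ≤ (H : ℝ) ^ ((1 : ℝ) / κ) := by
    calc (b : ℝ) = ((b : ℝ) ^ κ) ^ ((1 : ℝ) / κ) := by
          rw [one_div, Real.pow_rpow_inv_natCast (by positivity) hκ1]
      _ ≤ (H : ℝ) ^ ((1 : ℝ) / κ) := Real.rpow_le_rpow (by positivity) h1 (by positivity)
  refine h2.trans (Real.rpow_le_rpow_of_exponent_le hH1 ?_)
  rw [div_le_iff₀ hκ0]
  have := (div_le_iff₀ hβ).mp hκ
  linarith

theorem log_bound {H : ℕ} {β : ℝ} (hβ : 0 < β) (hH : 1 ≤ H) :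
    1 + Real.log H ≤ (1 + 1 / β) * (H : ℝ) ^ β := by
  have hH1 : (1 : ℝ) ≤ H := by exact_mod_cast hH
  have h1 := Real.log_le_rpow_div (by positivity : (0 : ℝ) ≤ H) hβ
  have h2 : (1 : ℝ) ≤ (H : ℝ) ^ β := Real.one_le_rpow hH1 hβ.le
  have h3 : (H : ℝ) ^ β / β = 1 / β * (H : ℝ) ^ β := by ring
  rw [h3] at h1
  nlinarith

theorem final_succ (E m : ℕ) (hm : 2 ≤ m) (θ : ℝ) (hθ : th m < θ) :
    ∃ (M : ℕ) (C : ℝ), ∀ H : ℕ, 1 ≤ H → (Bad (E + 1) m M H).Finite ∧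
      ((Bad (E + 1) m M H).ncard : ℝ) ≤ C * (H : ℝ) ^ ((E : ℝ) + 1 + θ) := by
  classical
  set β : ℝ := (θ - th m) / (m + 2) with hβdef
  have hβ : 0 < β := div_pos (by linarith) (by positivity)
  set κ : ℕ := ⌈1 / β⌉₊ with hκdef
  have hκ : 1 / β ≤ κ := Nat.le_ceil _
  obtain ⟨M, hM⟩ := Pool.Agent.Helper2.Digits.many_digits (E + 1) κ m
  set K : ℝ := 6 * (E + 3) ^ 3 * 3 ^ (E + 1) with hK
  have hK0 : 0 < K := by positivity
  set C1 : ℝ := (2 * (M : ℝ) ^ κ + 1) ^ (E + 2) with hC1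
  set C2 : ℝ := K * (1 + 1 / β) with hC2
  have hC10 : 0 ≤ C1 := by positivity
  have hC20 : 0 ≤ C2 := by positivity
  refine ⟨M, C1 + C2, fun H hH => ?_⟩
  have hH1 : (1 : ℝ) ≤ H := by exact_mod_cast hH
  have hθ0 : 0 < θ := lt_of_le_of_lt (th_nonneg hm) hθ
  have hpow1 : (1 : ℝ) ≤ (H : ℝ) ^ ((E : ℝ) + 1 + θ) := Real.one_le_rpow hH1 (by positivity)
  have hcases := fun P hP => bad_cases E m κ M hM H P hP
  rcases le_or_gt H (M ^ κ) with hHM | hHM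
  · obtain ⟨h1, h2⟩ := ncard_le_of_maps (E + 1) m M H (box (E + 1) H) (fun P hP => (hcases P hP).1)
    refine ⟨h1, ?_⟩
    rw [card_box] at h2
    have h3 : ((Bad (E + 1) m M H).ncard : ℝ) ≤ (2 * (H : ℝ) + 1) ^ (E + 2) := by exact_mod_cast h2
    have h4 : (H : ℝ) ≤ (M : ℝ) ^ κ := by exact_mod_cast hHM
    have h5 : (2 * (H : ℝ) + 1) ^ (E + 2) ≤ C1 := by rw [hC1]; gcongr
    calc ((Bad (E + 1) m M H).ncard : ℝ) ≤ C1 := h3.trans h5
      _ ≤ (C1 + C2) * 1 := by linarith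
      _ ≤ _ := by gcongr
  · set U : Finset (Fin (E + 2) → ℤ) := (Finset.Icc 2 ⌊(H : ℝ) ^ β⌋₊).biUnion fun b =>
      badb (E + 1) H b (min b m - 1) with hU
    obtain ⟨h1, h2⟩ := ncard_le_of_maps (E + 1) m M H U (fun P hP => by
      obtain ⟨-, b, hb, hHb, hbad⟩ := hcases P hP
      rw [hU, Finset.mem_biUnion]
      refine ⟨b, ?_, hbad⟩
      have h3 : b ^ κ < H := by
        by_contra hcon
        exact absurd (hHb (not_lt.mp hcon)) (not_le.mpr hHM)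
      rw [Finset.mem_Icc]
      exact ⟨hb, Nat.le_floor (small_b hβ hκ hH h3)⟩)
    refine ⟨h1, ?_⟩
    have hlog : 0 ≤ Real.log H := Real.log_nonneg hH1
    set X : ℝ := (H : ℝ) ^ β with hX
    have hX1 : 1 ≤ X := Real.one_le_rpow hH1 hβ.le
    have h3 : (U.card : ℝ) ≤ X * (K * X ^ m * (H : ℝ) ^ (E + 1) * (H : ℝ) ^ (th m) *
        (1 + Real.log H)) := by
      have h4 : (U.card : ℝ) ≤ ∑ b ∈ Finset.Icc 2 ⌊X⌋₊,
          ((badb (E + 1) H b (min b m - 1)).card : ℝ) := by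
        rw [hU]
        exact_mod_cast Finset.card_biUnion_le
      refine h4.trans ?_
      calc ∑ b ∈ Finset.Icc 2 ⌊X⌋₊, ((badb (E + 1) H b (min b m - 1)).card : ℝ)
          ≤ ∑ _b ∈ Finset.Icc 2 ⌊X⌋₊, (K * X ^ m * (H : ℝ) ^ (E + 1) * (H : ℝ) ^ (th m) *
              (1 + Real.log H)) := by
            refine Finset.sum_le_sum fun b hb => ?_
            rw [Finset.mem_Icc] at hb
            refine (badb_real E H b m hb.1 hm hH).trans ?_
            have h5 : (b : ℝ) ≤ X := (Nat.le_floor_iff (by linarith)).mp hb.2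
            rw [← hK]
            gcongr
        _ = ((Finset.Icc 2 ⌊X⌋₊).card : ℝ) * (K * X ^ m * (H : ℝ) ^ (E + 1) * (H : ℝ) ^ (th m) *
              (1 + Real.log H)) := by rw [Finset.sum_const, nsmul_eq_mul]
        _ ≤ X * (K * X ^ m * (H : ℝ) ^ (E + 1) * (H : ℝ) ^ (th m) * (1 + Real.log H)) := by
            have h6 : ((Finset.Icc 2 ⌊X⌋₊).card : ℝ) ≤ X := by
              rw [Nat.card_Icc]
              have h7 : ((⌊X⌋₊ + 1 - 2 : ℕ) : ℝ) ≤ (⌊X⌋₊ : ℝ) := by exact_mod_cast (by omega)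
              exact h7.trans (Nat.floor_le (by linarith))
            gcongr
    have h8 := log_bound hβ hH
    have h9 : X ^ (m + 2) = (H : ℝ) ^ (θ - th m) := by
      rw [hX, ← Real.rpow_natCast, ← Real.rpow_mul (by linarith)]
      congr 1
      rw [hβdef]
      push_cast
      exact div_mul_cancel₀ _ (by positivity)
    have h10 : (H : ℝ) ^ ((E : ℝ) + 1 + θ)
        = (H : ℝ) ^ (θ - th m) * (H : ℝ) ^ (E + 1) * (H : ℝ) ^ (th m) := by
      rw [← Real.rpow_natCast (H : ℝ) (E + 1), ← Real.rpow_add (by linarith),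
        ← Real.rpow_add (by linarith)]
      congr 1
      push_cast
      ring
    have h11 : ((Bad (E + 1) m M H).ncard : ℝ) ≤ U.card := by exact_mod_cast h2
    refine h11.trans (h3.trans ?_)
    calc X * (K * X ^ m * (H : ℝ) ^ (E + 1) * (H : ℝ) ^ (th m) * (1 + Real.log H))
        ≤ X * (K * X ^ m * (H : ℝ) ^ (E + 1) * (H : ℝ) ^ (th m) * ((1 + 1 / β) * X)) := by
          gcongr
      _ = C2 * (X ^ (m + 2) * (H : ℝ) ^ (E + 1) * (H : ℝ) ^ (th m)) := by rw [hC2]; ring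
      _ = C2 * (H : ℝ) ^ ((E : ℝ) + 1 + θ) := by rw [h9, h10]
      _ ≤ _ := by gcongr; linarith

theorem final (D m : ℕ) (hm : 2 ≤ m) (θ : ℝ) (hθ : th m < θ) :
    ∃ (M : ℕ) (C : ℝ), ∀ H : ℕ, 1 ≤ H → (Bad D m M H).Finite ∧
      ((Bad D m M H).ncard : ℝ) ≤ C * (H : ℝ) ^ ((D : ℝ) + θ) := by
  rcases D with _ | E
  · refine ⟨0, 0, fun H _ => ?_⟩
    have h0 : Bad 0 m 0 H = ∅ := by
      rw [Set.eq_empty_iff_forall_notMem]
      rintro P ⟨hP, hd, -, ξ, -, hr, -⟩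
      have h1 : P = Polynomial.C (P.coeff 0) :=
        Polynomial.eq_C_of_natDegree_le_zero hd
      rw [h1, Polynomial.aeval_C] at hr
      apply hP
      rw [h1]
      have h2 : P.coeff 0 = 0 := by
        simpa using hr
      rw [h2, Polynomial.C_0]
    rw [h0]
    simp
  · obtain ⟨M, C, h⟩ := final_succ E m hm θ hθ
    refine ⟨M, C, fun H hH => ?_⟩
    have := h H hH
    push_cast
    exact this

end Pool.Agent.Helper86.AA
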