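import Pool.Agent.Helper86.AA.Real
import Pool.Agent.Helper2.Digits.Final

/-!
# Almost all integer polynomials: many digits in every base
-/

set_option autoImplicit false

namespace Pool.Agent.Helper86.AA

open Finset Polynomial

/-- the coefficient vector -/
def vec (D : ℕ) (P : ℤ[X]) (i : Fin (D + 1)) : ℤ := P.coeff i

theorem ev_vec {D : ℕ} {P : ℤ[X]} (hP : P.natDegree ≤ D) (x : ℝ) : ev (vec D P) x = aeval x P := by
  rw [ev, Polynomial.aeval_eq_sum_range' (Nat.lt_succ_of_le hP) x]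
  rw [Finset.sum_range]
  refine Finset.sum_congr rfl fun i _ => ?_
  rw [vec, zsmul_eq_mul]

theorem vec_inj {D : ℕ} {P Q : ℤ[X]} (hP : P.natDegree ≤ D) (hQ : Q.natDegree ≤ D)
    (h : vec D P = vec D Q) : P = Q := by
  ext i
  rcases lt_or_ge i (D + 1) with hi | hi
  · exact congrFun h ⟨i, hi⟩
  · rw [Polynomial.coeff_eq_zero_of_natDegree_lt (by omega),
      Polynomial.coeff_eq_zero_of_natDegree_lt (by omega)]

theorem root_bound {H : ℕ} {P : ℤ[X]} (hP : P ≠ 0) (hc : ∀ i, |P.coeff i| ≤ (H : ℤ)) {x : ℝ}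
    (hx : aeval x P = 0) : |x| < (H : ℝ) + 1 := by
  have hinj : Function.Injective (Int.castRingHom ℝ) := Int.cast_injective
  set Q : ℝ[X] := P.map (Int.castRingHom ℝ) with hQ
  have hQ0 : Q ≠ 0 := (Polynomial.map_ne_zero_iff hinj).mpr hP
  have hroot : Q.IsRoot x := by
    rw [Polynomial.IsRoot, hQ, Polynomial.eval_map]
    rw [Polynomial.aeval_def] at hx
    exact hx
  have h1 := Polynomial.IsRoot.norm_lt_cauchyBound hQ0 hroot
  have h2 : (Q.cauchyBound : ℝ) ≤ H + 1 := by
    rw [Polynomial.cauchyBound]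
    push_cast
    have hl : (1 : ℝ) ≤ ‖Q.leadingCoeff‖ := by
      have h3 : Q.leadingCoeff = ((P.leadingCoeff : ℤ) : ℝ) := by
        rw [hQ, Polynomial.leadingCoeff_map_of_injective hinj]; simp
      rw [h3, Real.norm_eq_abs]
      have h4 : (1 : ℤ) ≤ |P.leadingCoeff| := Int.one_le_abs (Polynomial.leadingCoeff_ne_zero.mpr hP)
      exact_mod_cast h4
    have hs : ((Finset.sup (Finset.range Q.natDegree) fun i => ‖Q.coeff i‖₊ : NNReal) : ℝ) ≤ H := by
      have h5 : (Finset.sup (Finset.range Q.natDegree) fun i => ‖Q.coeff i‖₊ : NNReal) ≤ (H : NNReal) := by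
        refine Finset.sup_le fun i _ => ?_
        rw [← NNReal.coe_le_coe, coe_nnnorm, hQ, Polynomial.coeff_map, Real.norm_eq_abs]
        simp only [eq_intCast, NNReal.coe_natCast]
        exact_mod_cast hc i
      exact_mod_cast h5
    have h6 : ((Finset.sup (Finset.range Q.natDegree) fun i => ‖Q.coeff i‖₊ : NNReal) : ℝ)
        / ‖Q.leadingCoeff‖ ≤ H := by
      refine (div_le_self (by positivity) hl).trans hs
    linarith
  have h3 : |x| < (Q.cauchyBound : ℝ) := by
    have := NNReal.coe_lt_coe.mpr h1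
    simpa using this
  linarith

/-- the bad polynomials -/
def Bad (D m M H : ℕ) : Set ℤ[X] :=
  {P | P ≠ 0 ∧ P.natDegree ≤ D ∧ (∀ i, |P.coeff i| ≤ (H : ℤ)) ∧ ∃ ξ : ℝ, Irrational ξ ∧
    aeval ξ P = 0 ∧ ∃ b : ℕ, 2 ≤ b ∧
      ((Finset.range (M + Nat.log b H)).image (digit b ξ)).card < min b m}

theorem bad_cases (E m κ M : ℕ)
    (hM : ∀ b : ℕ, M ≤ b → ∀ ξ : ℝ, Irrational ξ →
      ∀ P : ℤ[X], P ≠ 0 → P.natDegree ≤ E + 1 → (∀ i, |P.coeff i| ≤ (b : ℤ) ^ κ) →
        Polynomial.aeval ξ P = 0 → m ≤ ((Finset.range M).image (digit b ξ)).card)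
    (H : ℕ) (P : ℤ[X]) (hP : P ∈ Bad (E + 1) m M H) :
    vec (E + 1) P ∈ box (E + 1) H ∧ ∃ b : ℕ, 2 ≤ b ∧
      (H ≤ b ^ κ → H ≤ M ^ κ) ∧ vec (E + 1) P ∈ badb (E + 1) H b (min b m - 1) := by
  classical
  obtain ⟨hP0, hPd, hPc, ξ, hξ, hr, b, hb, hcard⟩ := hP
  have hbox : vec (E + 1) P ∈ box (E + 1) H := mem_box.mpr fun i => hPc i
  refine ⟨hbox, b, hb, ?_, ?_⟩
  · intro hHb
    rcases lt_or_ge b M with hbM | hbM
    · exact hHb.trans (Nat.pow_le_pow_left hbM.le κ)
    · exfalso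
      have h1 := hM b hbM ξ hξ P hP0 hPd (fun i => (hPc i).trans (by exact_mod_cast hHb)) hr
      have h2 : ((Finset.range M).image (digit b ξ)).card
          ≤ ((Finset.range (M + Nat.log b H)).image (digit b ξ)).card :=
        Finset.card_le_card (Finset.image_subset_image (Finset.range_mono (by omega)))
      have h3 : min b m ≤ m := min_le_right _ _
      omega
  · rw [badb, Finset.mem_filter]
    refine ⟨hbox, ξ, root_bound hP0 hPc hr, (ev_vec hPd ξ).trans hr, ?_⟩
    have h2 : ((Finset.range (Nat.log b H)).image (digit b ξ)).card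
        ≤ ((Finset.range (M + Nat.log b H)).image (digit b ξ)).card :=
      Finset.card_le_card (Finset.image_subset_image (Finset.range_mono (by omega)))
    omega

theorem card_box (D H : ℕ) : (box D H).card = (2 * H + 1) ^ (D + 1) := by
  rw [box, Fintype.card_piFinset]
  simp only [Int.card_Icc]
  rw [Finset.prod_const, Finset.card_univ, Fintype.card_fin]
  congr 1
  omega

end Pool.Agent.Helper86.AA
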