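import Pool.Agent.Helper86.AA.Base

/-!
# Real inequalities, and the union over the small bases
-/

set_option autoImplicit false

namespace Pool.Agent.Helper86.AA

open Finset

/-- the exponent `log (m - 1) / log m` -/
noncomputable def th (m : ℕ) : ℝ := Real.log ((m : ℝ) - 1) / Real.log m

theorem th_nonneg {m : ℕ} (hm : 2 ≤ m) : 0 ≤ th m := by
  have h : (2 : ℝ) ≤ m := by exact_mod_cast hm
  exact div_nonneg (Real.log_nonneg (by linarith)) (Real.log_nonneg (by linarith))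

theorem th_le_one {m : ℕ} (hm : 2 ≤ m) : th m ≤ 1 := by
  have h : (2 : ℝ) ≤ m := by exact_mod_cast hm
  have h1 : 0 < Real.log m := Real.log_pos (by linarith)
  rw [th, div_le_one h1]
  exact Real.log_le_log (by linarith) (by linarith)

theorem rpow_th {m : ℕ} (hm : 2 ≤ m) : (m : ℝ) ^ (th m) = (m : ℝ) - 1 := by
  have h : (2 : ℝ) ≤ m := by exact_mod_cast hm
  have h1 : 0 < Real.log m := Real.log_pos (by linarith)
  rw [Real.rpow_def_of_pos (by linarith), th, mul_div_cancel₀ _ h1.ne', Real.exp_log (by linarith)]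

/-- `min b m - 1 ≤ b ^ th m` -/
theorem s_le {b m : ℕ} (hb : 2 ≤ b) (hm : 2 ≤ m) :
    ((min b m - 1 : ℕ) : ℝ) ≤ (b : ℝ) ^ (th m) := by
  have hm' : (2 : ℝ) ≤ m := by exact_mod_cast hm
  have hb' : (2 : ℝ) ≤ b := by exact_mod_cast hb
  rcases le_total m b with h | h
  · rw [min_eq_right h, Nat.cast_sub (by omega), Nat.cast_one, ← rpow_th hm]
    exact Real.rpow_le_rpow (by linarith) (by exact_mod_cast h) (th_nonneg hm)
  · rw [min_eq_left h, Nat.cast_sub (by omega), Nat.cast_one]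
    have hbm : (b : ℝ) ≤ m := by exact_mod_cast h
    -- concavity of t ^ th m on [1, m]
    have hc : (((m : ℝ) - b) / (m - 1)) • ((1 : ℝ) ^ (th m)) + (((b : ℝ) - 1) / (m - 1)) • ((m : ℝ) ^ (th m))
        ≤ ((((m : ℝ) - b) / (m - 1)) • (1 : ℝ) + (((b : ℝ) - 1) / (m - 1)) • (m : ℝ)) ^ (th m) :=
      (Real.concaveOn_rpow (th_nonneg hm) (th_le_one hm)).2
        (Set.mem_Ici.mpr zero_le_one) (Set.mem_Ici.mpr (by linarith))
        (div_nonneg (by linarith) (by linarith)) (div_nonneg (by linarith) (by linarith))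
        (by rw [← add_div, div_eq_one_iff_eq (by linarith)]; ring)
    simp only [smul_eq_mul, Real.one_rpow, mul_one] at hc
    rw [rpow_th hm] at hc
    have h1 : ((m : ℝ) - b) / (m - 1) + ((b : ℝ) - 1) / (m - 1) * m = b := by
      have : (m : ℝ) - 1 ≠ 0 := by linarith
      field_simp
      ring
    rw [h1] at hc
    refine le_trans ?_ hc
    have h2 : ((b : ℝ) - 1) / (m - 1) * ((m : ℝ) - 1) = b - 1 :=
      div_mul_cancel₀ _ (by linarith)
    rw [h2]
    have : 0 ≤ ((m : ℝ) - b) / (m - 1) := div_nonneg (by linarith) (by linarith)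
    linarith

theorem s_pow_le {b m H : ℕ} (hb : 2 ≤ b) (hm : 2 ≤ m) (hH : 1 ≤ H) :
    ((min b m - 1 : ℕ) : ℝ) ^ (Nat.log b H) ≤ (H : ℝ) ^ (th m) := by
  have hb' : (2 : ℝ) ≤ b := by exact_mod_cast hb
  calc ((min b m - 1 : ℕ) : ℝ) ^ (Nat.log b H)
      ≤ ((b : ℝ) ^ (th m)) ^ (Nat.log b H) := by
        gcongr
        exact s_le hb hm
    _ = (((b : ℝ)) ^ (Nat.log b H)) ^ (th m) := by
        rw [← Real.rpow_natCast, ← Real.rpow_natCast, ← Real.rpow_mul (by linarith),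
          ← Real.rpow_mul (by linarith), mul_comm]
    _ ≤ (H : ℝ) ^ (th m) := by
        apply Real.rpow_le_rpow (by positivity) _ (th_nonneg hm)
        exact_mod_cast Nat.pow_log_le_self b (by omega)

/-- the count in one base, real form -/
theorem badb_real (E H b m : ℕ) (hb : 2 ≤ b) (hm : 2 ≤ m) (hH : 1 ≤ H) :
    ((badb (E + 1) H b (min b m - 1)).card : ℝ) ≤
      (6 * (E + 3) ^ 3 * 3 ^ (E + 1)) * (b : ℝ) ^ m * (H : ℝ) ^ (E + 1) * (H : ℝ) ^ (th m) *
        (1 + Real.log H) := by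
  have hb' : (2 : ℝ) ≤ b := by exact_mod_cast hb
  have hH1 : (1 : ℝ) ≤ H := by exact_mod_cast hH
  have hlog : 0 ≤ Real.log H := Real.log_nonneg hH1
  have h1 : ((badb (E + 1) H b (min b m - 1)).card : ℝ) ≤
      ((2 * (b ^ (min b m - 1) * (min b m - 1) ^ (Nat.log b H)) *
        ∑ T ∈ Finset.range (H + 1), Bd E H b T : ℕ) : ℝ) := by
    exact_mod_cast badb_card E H b (min b m - 1) hb
  rw [Nat.cast_mul] at h1
  have h2 : (((2 * (b ^ (min b m - 1) * (min b m - 1) ^ (Nat.log b H)) : ℕ)) : ℝ) ≤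
      2 * ((b : ℝ) ^ (m - 1) * (H : ℝ) ^ (th m)) := by
    push_cast
    have h3 : (b : ℝ) ^ (min b m - 1) ≤ (b : ℝ) ^ (m - 1) :=
      pow_le_pow_right₀ (by linarith) (by omega)
    have h4 := s_pow_le hb hm hH
    gcongr
  have h5 := sum_Bd E H b hH
  refine h1.trans ((mul_le_mul h2 h5 (by positivity) (by positivity)).trans ?_)
  have h6 : (2 * (((E : ℝ) + 1) ^ 2 * b) + 1) ≤ 3 * (E + 1) ^ 2 * b := by
    have : (1 : ℝ) ≤ ((E : ℝ) + 1) ^ 2 * b := by
      have : (0 : ℝ) ≤ E := by positivity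
      nlinarith
    linarith
  have h7 : (2 * (H : ℝ) + 1) ^ (E + 1) ≤ 3 ^ (E + 1) * (H : ℝ) ^ (E + 1) := by
    rw [← mul_pow]
    gcongr
    linarith
  have h8 : (b : ℝ) ^ m = (b : ℝ) ^ (m - 1) * b := by
    rw [← pow_succ]; congr 1; omega
  calc 2 * ((b : ℝ) ^ (m - 1) * (H : ℝ) ^ (th m)) *
        ((2 * (((E : ℝ) + 1) ^ 2 * b) + 1) * (2 * (H : ℝ) + 1) ^ (E + 1) *
          (((E : ℝ) + 3) * (1 + Real.log H)))
      ≤ 2 * ((b : ℝ) ^ (m - 1) * (H : ℝ) ^ (th m)) *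
        ((3 * (E + 1) ^ 2 * b) * (3 ^ (E + 1) * (H : ℝ) ^ (E + 1)) *
          (((E : ℝ) + 3) * (1 + Real.log H))) := by gcongr
    _ ≤ 2 * ((b : ℝ) ^ (m - 1) * (H : ℝ) ^ (th m)) *
        ((3 * (E + 3) ^ 2 * b) * (3 ^ (E + 1) * (H : ℝ) ^ (E + 1)) *
          (((E : ℝ) + 3) * (1 + Real.log H))) := by gcongr; norm_num
    _ = _ := by rw [h8]; ring

end Pool.Agent.Helper86.AA
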