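import Pool.Agent.Helper86.AA.CellCard

/-!
# Words with few letters, and the integer with given digits
-/

set_option autoImplicit false

namespace Pool.Agent.Helper86.AA

open Finset

/-- the `i`-th digit after the point in base `b` (`i = 0` is the first one) -/
noncomputable def digit (b : ℕ) (x : ℝ) (i : ℕ) : ℤ :=
  ⌊x * (b : ℝ) ^ (i + 1)⌋ - (b : ℤ) * ⌊x * (b : ℝ) ^ i⌋

theorem digit_nonneg {b : ℕ} (x : ℝ) (i : ℕ) : 0 ≤ digit b x i := by
  have h1 := Int.floor_le (x * (b : ℝ) ^ i)
  have h2 : (b : ℤ) * ⌊x * (b : ℝ) ^ i⌋ ≤ ⌊x * (b : ℝ) ^ (i + 1)⌋ := by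
    rw [Int.le_floor]
    push_cast
    rw [pow_succ]
    have : (0 : ℝ) ≤ b := by positivity
    nlinarith
  rw [digit]; linarith

theorem digit_lt {b : ℕ} (hb : 0 < b) (x : ℝ) (i : ℕ) : digit b x i < b := by
  have h1 := Int.lt_floor_add_one (x * (b : ℝ) ^ i)
  have h2 : ⌊x * (b : ℝ) ^ (i + 1)⌋ < (b : ℤ) * ⌊x * (b : ℝ) ^ i⌋ + b := by
    rw [Int.floor_lt]
    push_cast
    rw [pow_succ]
    have : (0 : ℝ) < b := by positivity
    nlinarith
  rw [digit]; linarith

/-- the integer with integer part `k` and digits `d` -/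
def cellN (b : ℕ) (k : ℤ) (d : ℕ → ℤ) : ℕ → ℤ
  | 0 => k
  | i + 1 => b * cellN b k d i + d i

theorem floor_eq_cellN (b : ℕ) (x : ℝ) (d : ℕ → ℤ) (n : ℕ) (h : ∀ i < n, digit b x i = d i) :
    ⌊x * (b : ℝ) ^ n⌋ = cellN b ⌊x⌋ d n := by
  induction n with
  | zero => simp [cellN]
  | succ n ih =>
    rw [cellN, ← ih fun i hi => h i (by omega), ← h n (by omega), digit]
    ring

open Classical in
/-- words of length `n` over `b` letters with at most `s` letters -/
noncomputable def words (b n s : ℕ) : Finset (Fin n → Fin b) :=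
  Finset.univ.filter fun d => (Finset.univ.image d).card ≤ s

theorem card_words (b n s : ℕ) (hb : 0 < b) : (words b n s).card ≤ b ^ s * s ^ n := by
  classical
  have hsub : words b n s ⊆ (Finset.univ : Finset ((Fin s → Fin b) × (Fin n → Fin s))).image
      (fun p => p.1 ∘ p.2) := by
    intro d hd
    rw [words, Finset.mem_filter] at hd
    rw [Finset.mem_image]
    obtain ⟨t, ht, htc⟩ : ∃ t : Finset (Fin s), t ⊆ Finset.univ ∧ t.card = (Finset.univ.image d).card :=
      Finset.exists_subset_card_eq (by rw [Finset.card_univ, Fintype.card_fin]; exact hd.2)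
    let e := Finset.equivOfCardEq htc
    let z : Fin b := ⟨0, hb⟩
    refine ⟨(fun j => if h : j ∈ t then ((e ⟨j, h⟩ : {x // x ∈ Finset.univ.image d}) : Fin b) else z,
      fun i => ((e.symm ⟨d i, Finset.mem_image_of_mem d (Finset.mem_univ i)⟩ : {x // x ∈ t}) : Fin s)),
      Finset.mem_univ _, ?_⟩
    funext i
    simp only [Function.comp_apply]
    rw [dif_pos (e.symm ⟨d i, Finset.mem_image_of_mem d (Finset.mem_univ i)⟩).2]
    simp
  refine (Finset.card_le_card hsub).trans (Finset.card_image_le.trans (le_of_eq ?_))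
  rw [Finset.card_univ, Fintype.card_prod, Fintype.card_fun, Fintype.card_fun, Fintype.card_fin,
    Fintype.card_fin, Fintype.card_fin]

/-- the digits of a word as integers -/
def ext {b n : ℕ} (d : Fin n → Fin b) (i : ℕ) : ℤ := if h : i < n then ((d ⟨i, h⟩ : ℕ) : ℤ) else 0

theorem exists_word (b n s : ℕ) (hb : 0 < b) (x : ℝ)
    (h : ((Finset.range n).image (digit b x)).card ≤ s) :
    ∃ d ∈ words b n s, ∀ i < n, digit b x i = ext d i := by
  classical
  refine ⟨fun i => ⟨(digit b x i).toNat, ?_⟩, ?_, ?_⟩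
  · have h1 := digit_nonneg (b := b) x i
    have h2 := digit_lt hb x i
    omega
  · rw [words, Finset.mem_filter]
    refine ⟨Finset.mem_univ _, ?_⟩
    refine le_trans (Finset.card_le_card_of_injOn (fun t : Fin b => ((t : ℕ) : ℤ)) ?_ ?_) h
    · intro t ht
      rw [Finset.mem_coe, Finset.mem_image] at ht
      obtain ⟨i, _, rfl⟩ := ht
      rw [Finset.mem_coe, Finset.mem_image]
      refine ⟨i, Finset.mem_range.mpr i.2, ?_⟩
      have h1 := digit_nonneg (b := b) x i
      simp only
      omega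
    · intro t _ t' _ htt
      simp only at htt
      exact Fin.ext (by exact_mod_cast htt)
  · intro i hi
    rw [ext, dif_pos hi]
    have h1 := digit_nonneg (b := b) x i
    simp only
    omega

end Pool.Agent.Helper86.AA
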